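import Pool.Agent.W477.GM.Stms

set_option maxHeartbeats 1000000

/-!
# Project GM: the statement `P_VG2`
-/

namespace Pool.Agent.W477.GM.W764

open Pool.Agent.W477.GM

theorem upd_hs {v : ℕ → Nm QQ} (hv : ∀ i, HS SQ (v i)) (k : ℕ) {x : Nm QQ} (hx : HS SQ x) :
    ∀ i, HS SQ (Function.update v k x i) := by
  intro i
  by_cases h : i = k
  · subst h
    rw [Function.update_self]
    exact hx
  · rw [Function.update_of_ne h]
    exact hv i

theorem vg2_holds (h : P_EQ) (h2 : P_FC) (h3 : P_PR) (h4 : P_HS) (hl : P_LIFT) (hlh : P_LIFTHS)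
    (hco : P_COD) (hfi : P_FIN) (hv1 : P_VG1) (hc : P_CAX) (hk : P_KAP) (hs : P_SYSC) : P_VG2 := by
  intro x hx
  have hsys : SysAx SQ := hs hk Str slen hc.2
  have hE : EqF QQ := h QQ
  have hF : FcF QQ (HS SQ) := h2 QQ (HS SQ)
  have hP : PrF QQ := h3 QQ
  have hH : HsF QQ SQ := h4 QQ SQ hsys
  have hfin := hfi QQ SQ hsys
  obtain ⟨τ, F, hτ, hFF, c1, c2, c3⟩ := hv1 x hx
  refine ⟨τ, hτ, ?_⟩
  intro v hv v0 v1 v2 p
  -- membership in the generic filter
  have hg : ∀ (s : Nm QQ) p, fmem s gN p ↔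
      ∀ q, q ≤ p → ∃ r, r ≤ q ∧ ∃ c, r.c ≤ c ∧ feq s (chk (cd c)) r := hco.2.2.1
  have hg1 : ∀ (c : Str) (r : QQ), r.c ≤ c → fmem (chk (cd c)) gN r := by
    intro c r hr
    rw [hg]
    intro q hq
    exact ⟨q, le_rfl, c, hq.1.trans hr, hE.refl _ _⟩
  have hcg : ∀ (σ s t : Nm QQ) (c : Str) (r : QQ), feq s (chk (cd c)) r → fmem (opN σ s) t r →
      fmem (opN σ (chk (cd c))) t r := by
    intro σ s t c r hs ht
    exact hE.mcongr _ _ _ _ r ((hP.op _ _ _ _ r).2 ⟨hE.refl _ _, hs⟩) (hE.refl _ _) ht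
  unfold valFm
  rw [hF.ex]
  intro q _
  refine ⟨q, le_rfl, F, hFF, ?_⟩
  have hv' := upd_hs hv 3 hFF
  rw [hF.and]
  constructor
  · -- the evaluation
    intro t ht y hy q' hq' hty
    have hv4 := upd_hs hv' 4 ht
    have hv5 := upd_hs hv4 5 hy
    rw [hfin 4 5 3 (by norm_num) (by norm_num) (by norm_num) _ hv5] at hty
    have hty' : fmem (opN t y) F q' := hty
    rw [hF.and]
    constructor
    · intro σ hσ s hs' r hr hand
      have hv6 := upd_hs hv5 6 hσ
      have hv7 := upd_hs hv6 7 hs'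
      rw [hF.and, hfin 6 7 4 (by norm_num) (by norm_num) (by norm_num) _ hv7] at hand
      obtain ⟨ha1, ha2⟩ := hand
      have ha1' : fmem (opN σ s) t r := ha1
      have ha2' : fmem s gN r := by
        have : fmem s (v 0) r := ha2
        rw [v0] at this
        exact this
      rw [hF.ex]
      intro q1 hq1
      obtain ⟨r1, hr1, c, hrc, hsc⟩ := (hg s r).1 ha2' q1 hq1
      have k1 : fmem (opN σ (chk (cd c))) t r1 :=
        hcg σ s t c r1 hsc (hE.mmono _ _ r r1 (hr1.trans hq1) ha1')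
      obtain ⟨r2, hr2, z, hz, hzF⟩ := c3 t r1 σ c y ht hy hσ
        (hE.mmono _ _ q' r1 ((hr1.trans hq1).trans hr) hty') k1 hrc r1 le_rfl
      refine ⟨r2, hr2.trans hr1, z, hz, ?_⟩
      have hv8 := upd_hs hv7 8 hz
      rw [hfin 6 8 3 (by norm_num) (by norm_num) (by norm_num) _ hv8]
      exact hzF
    · intro z hz
      have hv8 := upd_hs hv5 8 hz
      rw [hF.iff]
      intro r hr
      have k0 := c2 t y r ht hy (hE.mmono _ _ q' r hr hty') z hz
      have k1 : Fc (HS SQ) (.mem 8 5) (Function.update (Function.update (Function.update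
          (Function.update v 3 F) 4 t) 5 y) 8 z) r ↔ fmem z y r := Iff.rfl
      rw [k1, k0, hF.ex]
      constructor
      · intro hall q1 hq1
        obtain ⟨r1, hr1, σ, c, hσ, hrc, m1, m2⟩ := hall q1 hq1
        refine ⟨r1, hr1, σ, hσ, ?_⟩
        rw [hF.ex]
        intro q2 hq2
        refine ⟨q2, le_rfl, chk (cd c), hH.chk _, ?_⟩
        have hv6 := upd_hs hv8 6 hσ
        have hv7 := upd_hs hv6 7 (hH.chk (cd c))
        rw [hF.and, hF.and, hfin 6 7 4 (by norm_num) (by norm_num) (by norm_num) _ hv7,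
          hfin 6 8 3 (by norm_num) (by norm_num) (by norm_num) _ hv7]
        refine ⟨⟨?_, ?_⟩, ?_⟩
        · exact hE.mmono _ _ r1 q2 hq2 m1
        · have : fmem (chk (cd c)) (v 0) q2 := by
            rw [v0]
            exact hg1 c q2 (hq2.1.trans hrc)
          exact this
        · exact hE.mmono _ _ r1 q2 hq2 m2
      · intro hall q1 hq1
        obtain ⟨r1, hr1, σ, hσ, hex⟩ := hall q1 hq1
        rw [hF.ex] at hex
        obtain ⟨r2, hr2, s, hs', hand⟩ := hex r1 le_rfl
        have hv6 := upd_hs hv8 6 hσ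
        have hv7 := upd_hs hv6 7 hs'
        rw [hF.and, hF.and, hfin 6 7 4 (by norm_num) (by norm_num) (by norm_num) _ hv7,
          hfin 6 8 3 (by norm_num) (by norm_num) (by norm_num) _ hv7] at hand
        obtain ⟨⟨m1, m2⟩, m3⟩ := hand
        have m1' : fmem (opN σ s) t r2 := m1
        have m2' : fmem s gN r2 := by
          have : fmem s (v 0) r2 := m2
          rw [v0] at this
          exact this
        have m3' : fmem (opN σ z) F r2 := m3
        obtain ⟨r3, hr3, c, hrc, hsc⟩ := (hg s r2).1 m2' r2 le_rfl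
        exact ⟨r3, (hr3.trans hr2).trans hr1, σ, c, hσ, hrc,
          hcg σ s t c r3 hsc (hE.mmono _ _ r2 r3 hr3 m1'), hE.mmono _ _ r2 r3 hr3 m3'⟩
  · rw [hfin 1 2 3 (by norm_num) (by norm_num) (by norm_num) _ hv']
    have : fmem (opN (v 1) (v 2)) F q := by
      rw [v1, v2]
      exact c1 q
    exact this

end Pool.Agent.W477.GM.W764
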